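import Pool.Agent.H18.XZ.TD
import Pool.Agent.H10.AVH.SUM

/-!
# Row CNB: for uniform tables protocols are rarely right too often
-/

set_option autoImplicit false

namespace Pool.Agent.H66.XZ

open Finset Pool.Agent.H70.OQ
open Pool.Agent.H70.EH hiding T_NUM
open Pool.Agent.H78.XQ hiding T_POW T_SUM
open Pool.Agent.H6.NB hiding sg T_NUM
open Pool.Agent.H70.EI hiding T_AST T_NU2
open Pool.Agent.H66.IQ
open Pool.Agent.H66.AV
open Pool.Agent.H18.XZ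
open Pool.Agent.H10.AVH (sum_small_mono sum_bd_mono sum_bd_tests sum_tests_bd sum_val01 sum_upd)

theorem pf_CNB (hAMP : Pool.Agent.H66.AV.T_AMP) (hPOW : Pool.Agent.H66.AV.T_POW)
    (hNUM : Pool.Agent.H66.AV.T_NUM) (hNUS : T_NUS) (hCNC : T_CNC)
    (hRCT : Pool.Agent.H66.AV.T_RCT) : T_CNB := by
  classical
  intro k
  obtain ⟨n₂, h2⟩ := hNUM
  obtain ⟨n₃, h3⟩ := hCNC k
  obtain ⟨n₄, h4'⟩ := hNUS
  refine ⟨n₂ + n₃ + n₄, fun n hn G hGW Q hQ hz => ?_⟩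
  obtain ⟨e1, e2, e3, -⟩ := h2 n (by omega)
  have e4 := h4' n (by omega)
  set a : ℕ := n / 64 + n / 32 + 4 with ha
  set B : ℕ := 2 ^ (n / 32) with hB
  have hB1 : 1 ≤ B := Nat.one_le_two_pow
  have hA : ∀ x : Fin n → Bool, ∃ G' : Prot k,
      G'.moves ≤ (2 * a + 1) * 4 ^ a * (G x).moves ∧
      (∀ d s, Bd d s (G x) → Bd ((2 * a + 1) * 4 ^ a * d) s G') ∧
      ∀ O, (2 / 3 ≤ (G x).val O → 1 - (1 / 2) ^ a ≤ G'.val O) ∧
        ((G x).val O ≤ 1 / 3 → G'.val O ≤ (1 / 2) ^ a) :=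
    fun x => hAMP k (G x) a (by omega)
  choose A hAm hAb hAv using hA
  have hC : ∀ x : Fin n → Bool, ∃ G' : Prot k, G'.moves ≤ B * (A x).moves ∧
      (∀ d s, Bd d s (A x) → Bd (B * d) s G') ∧
      ∀ O, 1 - G'.val O = (1 - (A x).val O) ^ B := fun x => (hPOW k (A x) B).2
  choose C hCm hCb hCv using hC
  have hs16 : 2 ^ (n / 16) ≤ 2 ^ (n / 6) := Nat.pow_le_pow_right (by norm_num) (by omega)
  have hAB : ∀ x, Bd ((2 * a + 1) * 4 ^ a * 2 ^ (n / 16)) (2 ^ (n / 16)) (A x) :=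
    fun x => hAb x _ _ (sum_tests_bd _ (hGW x).2)
  have hAW : ∀ x, (A x).Within (2 ^ (n / 6)) := fun x =>
    ⟨((hAm x).trans (Nat.mul_le_mul_left _ (hGW x).1)).trans e1,
      sum_bd_tests _ (sum_bd_mono e1 hs16 _ (hAB x))⟩
  obtain ⟨ε, hεd⟩ : ∃ ε : ℝ, ε = (1 / 2) ^ (n / 64) := ⟨_, rfl⟩
  obtain ⟨δ, hδd⟩ : ∃ δ : ℝ, δ = (1 / 2) ^ (n / 36) := ⟨_, rfl⟩
  have hε : (0 : ℝ) < ε := by rw [hεd]; positivity
  have hδ : (0 : ℝ) < δ := by rw [hδd]; positivity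
  rw [← hεd] at e3 e4
  rw [← hδd] at e4
  -- the protocols as functions on strings
  obtain ⟨G', hG'⟩ : ∃ G' : List Bool → Prot k, ∀ x : Fin n → Bool, G' (List.ofFn x) = G x :=
    ⟨Function.extend List.ofFn G fun _ => .test (.leaf true), fun x =>
      List.ofFn_injective.extend_apply G _ x⟩
  have hAv' : ∀ (x : Fin n → Bool) O,
      (2 / 3 ≤ (G' (List.ofFn x)).val O → 1 - (1 / 2) ^ a ≤ (A x).val O) ∧
      ((G' (List.ofFn x)).val O ≤ 1 / 3 → (A x).val O ≤ (1 / 2) ^ a) := by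
    intro x O
    rw [hG']
    exact hAv x O
  -- a number
  have hnum : 16 / ε ^ 2 * δ ^ 2 + 2 / ε * (1 / (B : ℝ) + 2 * δ) < 1 := by
    have h5 : (0 : ℝ) ≤ (4 / ε ^ 2 + 2 / ε) * (2 ^ 2 ^ (n / 100) * (1 / 2) ^ 2 ^ (n / 20)) := by
      positivity
    have h6 : (0 : ℝ) ≤ (36 / ε ^ 2 + 4 / ε) * (1 / 2) ^ (n / 100) ^ 3 := by positivity
    have h7 : ((1 : ℝ) / 2) ^ (n / 100) ≤ 1 := pow_le_one₀ (by norm_num) (by norm_num)
    linarith
  have hone : ∀ z : Wn n k, Bdr G (fun x => (z x).1) (Q (tbl z)) →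
      ¬ (|s0 A Q z| ≤ (1 / 2) ^ (n / 36) * 2 ^ n ∧
      s1 A C Q z ≤ 2 ^ n * (1 / B + 2 * (1 / 2) ^ (n / 36))) := by
    intro z hb hs
    rw [← hδd] at hs
    have ht : tst ε A C Q z < 1 := by
      refine lt_of_le_of_lt ?_ hnum
      unfold tst
      have h4 : (4 : ℝ) ^ n = 2 ^ n * 2 ^ n := by
        rw [← mul_pow]; norm_num
      have h2n : (0 : ℝ) < 2 ^ n := by positivity
      have hsq : s0 A Q z ^ 2 ≤ (δ * 2 ^ n) ^ 2 := by
        rw [← sq_abs]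
        exact pow_le_pow_left₀ (abs_nonneg _) hs.1 2
      have h5 : 16 / (ε ^ 2 * 4 ^ n) * s0 A Q z ^ 2 ≤ 16 / ε ^ 2 * δ ^ 2 := by
        calc 16 / (ε ^ 2 * 4 ^ n) * s0 A Q z ^ 2 ≤ 16 / (ε ^ 2 * 4 ^ n) * (δ * 2 ^ n) ^ 2 :=
              mul_le_mul_of_nonneg_left hsq (by positivity)
          _ = 16 / ε ^ 2 * δ ^ 2 := by
              rw [h4]
              field_simp
      have h6 : 2 / (ε * 2 ^ n) * s1 A C Q z ≤ 2 / ε * (1 / (B : ℝ) + 2 * δ) := by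
        calc 2 / (ε * 2 ^ n) * s1 A C Q z ≤
              2 / (ε * 2 ^ n) * (2 ^ n * (1 / (B : ℝ) + 2 * δ)) :=
              mul_le_mul_of_nonneg_left hs.2 (by positivity)
          _ = 2 / ε * (1 / (B : ℝ) + 2 * δ) := by
              rw [← mul_assoc]
              congr 1
              field_simp
      exact add_le_add h5 h6
    have h8 := hRCT n k G' A C a B ε hε e3 hAv' hCv hB1 Q z (fun x => hz z x) ht
    have h9 : rights G' (Q (tbl z)) n =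
        (univ.filter fun x : Fin n → Bool => (G x).Proves (Q (tbl z)) ((z x).1 = false)).card := by
      unfold rights
      refine congrArg Finset.card ?_
      refine Finset.filter_congr fun x _ => ?_
      have h10 : (List.ofFn x ∉ alang k (Q (tbl z))) ↔ (z x).1 = false := by
        rw [hz z x]
        cases (z x).1 <;> simp
      rw [hG', h10]
    rw [h9, hεd] at h8
    unfold Bdr at hb
    exact absurd h8 (not_le.2 hb)
  have h10 := h3 n (by omega) A C B hB1 hAW hCv Q hQ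
  refine le_trans ?_ h10
  have h11 : ∑ z : Wn n k, ic (Bdr G (fun x => (z x).1) (Q (tbl z))) ≤
      ∑ z : Wn n k, (if ¬ (|s0 A Q z| ≤ (1 / 2) ^ (n / 36) * 2 ^ n ∧
        s1 A C Q z ≤ 2 ^ n * (1 / B + 2 * (1 / 2) ^ (n / 36))) then (1 : ℝ) else 0) := by
    refine Finset.sum_le_sum fun z _ => ?_
    unfold ic
    by_cases hb : Bdr G (fun x => (z x).1) (Q (tbl z))
    · rw [if_pos hb, if_pos (hone z hb)]
    · rw [if_neg hb]
      split_ifs <;> norm_num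
  refine h11.trans (le_of_eq ?_)
  rw [Finset.sum_boole]

end Pool.Agent.H66.XZ
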