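import Pool.Agent.H18.XZ.TB

/-!
# Row MAS: the masses of the rows
-/

set_option autoImplicit false

namespace Pool.Agent.H66.XZ

open Finset Pool.Agent.H6.NB Pool.Agent.H70.OQ Pool.Agent.H70.EH Pool.Agent.H70.EI Pool.Agent.H78.XQ
open Pool.Agent.H66.IQ Pool.Agent.H66.AV Pool.Agent.H18.XZ

/-- The variables on the path of a tree. -/
theorem dtq {V : Type} [DecidableEq V] (T : Pool.Agent.H68.AC.DT V) (y : V → Bool) :
    ∃ Q : Finset V, Q.card ≤ T.depth ∧ ∀ y', (∀ v ∈ Q, y' v = y v) → T.eval y' = T.eval y := by
  induction T with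
  | leaf b => exact ⟨∅, by simp, fun y' _ => rfl⟩
  | node v l r hl hr =>
    obtain ⟨Ql, hQl, hl'⟩ := hl
    obtain ⟨Qr, hQr, hr'⟩ := hr
    cases hy : y v with
    | false =>
      refine ⟨insert v Ql, ?_, fun y' h => ?_⟩
      · have := Finset.card_insert_le v Ql
        have h2 : l.depth ≤ max l.depth r.depth := le_max_left _ _
        simp only [Pool.Agent.H68.AC.DT.depth]
        omega
      · have h1 : y' v = false := by rw [h v (Finset.mem_insert_self _ _), hy]
        have h2 : Pool.Agent.H68.AC.DT.eval y' l = Pool.Agent.H68.AC.DT.eval y l :=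
          hl' y' fun u hu => h u (Finset.mem_insert_of_mem hu)
        simp only [Pool.Agent.H68.AC.DT.eval, h1, hy, cond_false, h2]
    | true =>
      refine ⟨insert v Qr, ?_, fun y' h => ?_⟩
      · have := Finset.card_insert_le v Qr
        have h2 : r.depth ≤ max l.depth r.depth := le_max_right _ _
        simp only [Pool.Agent.H68.AC.DT.depth]
        omega
      · have h1 : y' v = true := by rw [h v (Finset.mem_insert_self _ _), hy]
        have h2 : Pool.Agent.H68.AC.DT.eval y' r = Pool.Agent.H68.AC.DT.eval y r :=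
          hr' y' fun u hu => h u (Finset.mem_insert_of_mem hu)
        simp only [Pool.Agent.H68.AC.DT.eval, h1, hy, cond_true, h2]

open Classical in
/-- The questions of an examination. -/
noncomputable def exq {k : ℕ} : Exam k → Finset (Machine k × List Bool)
  | .leaf _ => ∅
  | .node M x l r => insert (M, x) (exq l ∪ exq r)

open Classical in
/-- The questions of a protocol. -/
noncomputable def prq {k : ℕ} : Prot k → Finset (Machine k × List Bool)
  | .test T => exq T
  | .coin l r => prq l ∪ prq r
  | .say l r => prq l ∪ prq r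

theorem exq_node {k : ℕ} (M : Machine k) (x : List Bool) (l r : Exam k) [DecidableEq (Machine k × List Bool)] :
    exq (.node M x l r) = insert (M, x) (exq l ∪ exq r) := by
  ext q
  simp [exq]

theorem prq_test {k : ℕ} (T : Exam k) : prq (.test T) = exq T := rfl

theorem prq_coin {k : ℕ} (l r : Prot k) [DecidableEq (Machine k × List Bool)] :
    prq (.coin l r) = prq l ∪ prq r := by
  ext q
  simp [prq]

theorem prq_say {k : ℕ} (l r : Prot k) [DecidableEq (Machine k × List Bool)] :
    prq (.say l r) = prq l ∪ prq r := by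
  ext q
  simp [prq]

theorem exq_card {k : ℕ} (T : Exam k) : (exq T).card + 1 ≤ 2 ^ T.depth := by
  classical
  induction T with
  | leaf b => simp [exq, Exam.depth]
  | node M x l r hl hr =>
    have h1 : (exq (.node M x l r)).card ≤ (exq l).card + (exq r).card + 1 := by
      rw [exq_node]
      refine (Finset.card_insert_le _ _).trans ?_
      have := Finset.card_union_le (exq l) (exq r)
      omega
    have h2 : 2 ^ l.depth ≤ 2 ^ max l.depth r.depth :=
      Nat.pow_le_pow_right (by norm_num) (le_max_left _ _)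
    have h3 : 2 ^ r.depth ≤ 2 ^ max l.depth r.depth :=
      Nat.pow_le_pow_right (by norm_num) (le_max_right _ _)
    have h4 : (Exam.node M x l r).depth = max l.depth r.depth + 1 := rfl
    rw [h4, pow_succ]
    omega

theorem prq_card {k m : ℕ} (G : Prot k) (h : G.Tests m) : (prq G).card ≤ 2 ^ G.moves * 2 ^ m := by
  classical
  induction G with
  | test T =>
    have h1 := exq_card T
    have h2 : 2 ^ T.depth ≤ 2 ^ m := Nat.pow_le_pow_right (by norm_num) h.1
    have h3 : (prq (.test T)).card = (exq T).card := rfl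
    have h4 : (Prot.test T).moves = 0 := rfl
    rw [h3, h4]
    omega
  | coin l r hl hr =>
    have h1 := hl h.1
    have h2 := hr h.2
    have h3 : (prq (.coin l r)).card ≤ (prq l).card + (prq r).card := by
      rw [prq_coin]
      exact Finset.card_union_le _ _
    have h4 : (Prot.coin l r).moves = max l.moves r.moves + 1 := rfl
    have h5 : 2 ^ l.moves * 2 ^ m ≤ 2 ^ max l.moves r.moves * 2 ^ m :=
      Nat.mul_le_mul_right _ (Nat.pow_le_pow_right (by norm_num) (le_max_left _ _))
    have h6 : 2 ^ r.moves * 2 ^ m ≤ 2 ^ max l.moves r.moves * 2 ^ m :=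
      Nat.mul_le_mul_right _ (Nat.pow_le_pow_right (by norm_num) (le_max_right _ _))
    rw [h4, pow_succ]
    have h7 : 2 ^ max l.moves r.moves * 2 * 2 ^ m =
        2 ^ max l.moves r.moves * 2 ^ m + 2 ^ max l.moves r.moves * 2 ^ m := by ring
    rw [h7]
    omega
  | say l r hl hr =>
    have h1 := hl h.1
    have h2 := hr h.2
    have h3 : (prq (.say l r)).card ≤ (prq l).card + (prq r).card := by
      rw [prq_say]
      exact Finset.card_union_le _ _
    have h4 : (Prot.say l r).moves = max l.moves r.moves + 1 := rfl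
    have h5 : 2 ^ l.moves * 2 ^ m ≤ 2 ^ max l.moves r.moves * 2 ^ m :=
      Nat.mul_le_mul_right _ (Nat.pow_le_pow_right (by norm_num) (le_max_left _ _))
    have h6 : 2 ^ r.moves * 2 ^ m ≤ 2 ^ max l.moves r.moves * 2 ^ m :=
      Nat.mul_le_mul_right _ (Nat.pow_le_pow_right (by norm_num) (le_max_right _ _))
    rw [h4, pow_succ]
    have h7 : 2 ^ max l.moves r.moves * 2 * 2 ^ m =
        2 ^ max l.moves r.moves * 2 ^ m + 2 ^ max l.moves r.moves * 2 ^ m := by ring
    rw [h7]
    omega

theorem exq_small {k m : ℕ} (T : Exam k) (h : T.Small m) :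
    ∀ c ∈ exq T, c.2.length ^ c.1.c + c.1.c ≤ m := by
  classical
  induction T with
  | leaf b => intro c hc; simp [exq] at hc
  | node M x l r hl hr =>
    intro c hc
    rw [exq_node] at hc
    rcases Finset.mem_insert.1 hc with h1 | h1
    · rw [h1]; exact h.1
    · rcases Finset.mem_union.1 h1 with h2 | h2
      · exact hl h.2.1 c h2
      · exact hr h.2.2 c h2

theorem prq_small {k m : ℕ} (G : Prot k) (h : G.Tests m) :
    ∀ c ∈ prq G, c.2.length ^ c.1.c + c.1.c ≤ m := by
  classical
  induction G with
  | test T => intro c hc; exact exq_small T h.2 c hc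
  | coin l r hl hr =>
    intro c hc
    rw [prq_coin] at hc
    rcases Finset.mem_union.1 hc with h2 | h2
    · exact hl h.1 c h2
    · exact hr h.2 c h2
  | say l r hl hr =>
    intro c hc
    rw [prq_say] at hc
    rcases Finset.mem_union.1 hc with h2 | h2
    · exact hl h.1 c h2
    · exact hr h.2 c h2

section

variable {k : ℕ} {R P : Type} [Fintype R] [DecidableEq R] [Fintype P] [DecidableEq P] {w : ℕ}
  {L : R → Finset P} {O : (R × P → Bool) → List Bool → Bool} {c : R → Option P}

theorem pat_ok (hc : Okc L c) : ∀ r u, u ∉ L r → pat c (r, u) = true := by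
  intro r u hu
  unfold pat
  have : c r ≠ some u := fun h => hu (hc r u h)
  simp [this]

theorem ex_path (hc : Okc L c) (T : Exam k)
    (hT : ∀ q ∈ exq T, ∃ D : Pool.Agent.H68.AC.DT (R × P), D.depth ≤ w ∧
      ∀ y, (∀ r u, u ∉ L r → y (r, u) = true) → (D.eval y = true ↔ q.2 ∈ q.1.lang (O y))) :
    ∃ S : Finset (R × P), S.card ≤ T.depth * w ∧ ∀ c', Okc L c' →
      (∀ p ∈ S, pat c' p = pat c p) → T.eval (O (pat c')) = T.eval (O (pat c)) := by
  classical
  induction T with
  | leaf b => exact ⟨∅, by simp, fun c' _ _ => rfl⟩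
  | node M x l r hl hr =>
    rw [exq_node] at hT
    obtain ⟨D, hD, hD'⟩ := hT (M, x) (Finset.mem_insert_self _ _)
    obtain ⟨Sl, hSl, hl'⟩ := hl fun q hq => hT q
      (Finset.mem_insert_of_mem (Finset.mem_union_left _ hq))
    obtain ⟨Sr, hSr, hr'⟩ := hr fun q hq => hT q
      (Finset.mem_insert_of_mem (Finset.mem_union_right _ hq))
    obtain ⟨Q, hQ, hQ'⟩ := dtq D (pat c)
    have hdep : (Exam.node M x l r).depth = max l.depth r.depth + 1 := rfl
    have hml : l.depth ≤ max l.depth r.depth := le_max_left _ _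
    have hmr : r.depth ≤ max l.depth r.depth := le_max_right _ _
    have h0 := hD' (pat c) (pat_ok hc)
    simp only at h0
    by_cases hx : x ∈ M.lang (O (pat c))
    · refine ⟨Q ∪ Sr, ?_, fun c' hc' h => ?_⟩
      · have h1 := Finset.card_union_le Q Sr
        have h2 : r.depth * w ≤ max l.depth r.depth * w := Nat.mul_le_mul_right _ hmr
        rw [hdep, Nat.add_mul, Nat.one_mul]
        omega
      · have h1 : D.eval (pat c') = D.eval (pat c) :=
          hQ' _ fun v hv => h v (Finset.mem_union_left _ hv)
        have h2 := hD' (pat c') (pat_ok hc')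
        simp only at h2
        have h3 : x ∈ M.lang (O (pat c')) := by rw [← h2, h1, h0]; exact hx
        have h4 := hr' c' hc' fun v hv => h v (Finset.mem_union_right _ hv)
        unfold Exam.eval
        rw [if_pos h3, if_pos hx, h4]
    · refine ⟨Q ∪ Sl, ?_, fun c' hc' h => ?_⟩
      · have h1 := Finset.card_union_le Q Sl
        have h2 : l.depth * w ≤ max l.depth r.depth * w := Nat.mul_le_mul_right _ hml
        rw [hdep, Nat.add_mul, Nat.one_mul]
        omega
      · have h1 : D.eval (pat c') = D.eval (pat c) :=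
          hQ' _ fun v hv => h v (Finset.mem_union_left _ hv)
        have h2 := hD' (pat c') (pat_ok hc')
        simp only at h2
        have h3 : x ∉ M.lang (O (pat c')) := by rw [← h2, h1, h0]; exact hx
        have h4 := hl' c' hc' fun v hv => h v (Finset.mem_union_right _ hv)
        unfold Exam.eval
        rw [if_neg h3, if_neg hx, h4]

theorem cm_nonneg (a : R → P → ℝ) (ha : ∀ r u, 0 ≤ a r u) (c c' : R → Option P) :
    0 ≤ cm a c c' := by
  unfold cm
  refine Finset.sum_nonneg fun r _ => ?_
  split_ifs
  · exact le_rfl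
  · have h : ∀ o : Option P, 0 ≤ o.elim 0 (a r) := by
      intro o; cases o with
      | none => exact le_rfl
      | some u => exact ha r u
    exact add_nonneg (h _) (h _)

theorem cm_ge (a : R → P → ℝ) (ha : ∀ r u, 0 ≤ a r u) (c c' : R → Option P) (r : R) (u : P)
    (h : pat c' (r, u) ≠ pat c (r, u)) : a r u ≤ cm a c c' := by
  have hel : ∀ (r : R) (o : Option P), 0 ≤ o.elim 0 (a r) := by
    intro r o; cases o with
    | none => exact le_rfl
    | some u => exact ha r u
  have h2 : c r ≠ c' r := by
    intro h3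
    apply h
    simp only [pat, h3]
  have h1 : (c r).elim 0 (a r) + (c' r).elim 0 (a r) ≤ cm a c c' := by
    unfold cm
    refine le_trans ?_ (Finset.single_le_sum (fun i _ => ?_) (Finset.mem_univ r))
    · rw [if_neg h2]
    · split_ifs
      · exact le_rfl
      · exact add_nonneg (hel _ _) (hel _ _)
  refine le_trans ?_ h1
  by_cases h3 : c r = some u
  · rw [h3]
    have := hel r (c' r)
    show a r u ≤ a r u + _
    linarith
  · have h4 : c' r = some u := by
      by_contra h4
      apply h
      simp only [pat, h3, h4]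
    rw [h4]
    have := hel r (c r)
    show a r u ≤ _ + a r u
    linarith

theorem cm_add (a b : R → P → ℝ) (c c' : R → Option P) :
    cm (fun r u => (a r u + b r u) / 2) c c' = (cm a c c' + cm b c c') / 2 := by
  unfold cm
  rw [← Finset.sum_add_distrib, Finset.sum_div]
  refine Finset.sum_congr rfl fun r _ => ?_
  by_cases h : c r = c' r
  · simp [h]
  · simp only [if_neg h]
    have hel : ∀ o : Option P, o.elim 0 (fun u => (a r u + b r u) / 2) =
        (o.elim 0 (a r) + o.elim 0 (b r)) / 2 := by
      intro o; cases o <;> simp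
    rw [hel, hel]
    ring

theorem mas_main {m : ℕ} (hc : Okc L c) (G : Prot k) (hG : G.Tests m)
    (hT : ∀ q ∈ prq G, ∃ D : Pool.Agent.H68.AC.DT (R × P), D.depth ≤ w ∧
      ∀ y, (∀ r u, u ∉ L r → y (r, u) = true) → (D.eval y = true ↔ q.2 ∈ q.1.lang (O y))) :
    ∃ a : R → P → ℝ, (∀ r u, 0 ≤ a r u) ∧ ∑ r, ∑ u, a r u ≤ (m : ℝ) * w ∧
      ∀ c', Okc L c' → G.val (O (pat c)) - G.val (O (pat c')) ≤ cm a c c' := by
  classical
  induction G with
  | test T =>
    obtain ⟨S, hS, hS'⟩ := ex_path (O := O) hc T hT
    have hnn : ∀ (r : R) (u : P), (0 : ℝ) ≤ if (r, u) ∈ S then 1 else 0 := by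
      intro r u; split_ifs <;> norm_num
    refine ⟨fun r u => if (r, u) ∈ S then 1 else 0, hnn, ?_, fun c' hc' => ?_⟩
    · have h1 : ∑ r : R, ∑ u : P, (if (r, u) ∈ S then (1 : ℝ) else 0) = S.card := by
        rw [← Finset.sum_product' (s := univ) (t := univ)
          (f := fun r u => if (r, u) ∈ S then (1 : ℝ) else 0)]
        simp
      rw [h1]
      have h2 : S.card ≤ m * w := hS.trans (Nat.mul_le_mul_right _ hG.1)
      exact_mod_cast h2
    · have hn : 0 ≤ cm (fun r u => if (r, u) ∈ S then (1 : ℝ) else 0) c c' :=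
        cm_nonneg _ hnn _ _
      by_cases h : ∀ p ∈ S, pat c' p = pat c p
      · have h1 := hS' c' hc' h
        simp only [Prot.val, h1, sub_self]
        exact hn
      · push Not at h
        obtain ⟨⟨r, u⟩, hp, hp'⟩ := h
        have h1 := cm_ge (fun r u => if (r, u) ∈ S then (1 : ℝ) else 0)
          hnn c c' r u hp'
        simp only [if_pos hp] at h1
        refine le_trans ?_ h1
        simp only [Prot.val]
        split_ifs <;> norm_num
  | coin l r hl hr =>
    rw [prq_coin] at hT
    obtain ⟨al, h1, h2, h3⟩ := hl hG.1 fun q hq => hT q (Finset.mem_union_left _ hq)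
    obtain ⟨ar, h4, h5, h6⟩ := hr hG.2 fun q hq => hT q (Finset.mem_union_right _ hq)
    refine ⟨fun r u => (al r u + ar r u) / 2, fun r u => ?_, ?_, fun c' hc' => ?_⟩
    · have := h1 r u; have := h4 r u; positivity
    · have h7 : ∑ r : R, ∑ u : P, (al r u + ar r u) / 2 =
          (∑ r, ∑ u, al r u + ∑ r, ∑ u, ar r u) / 2 := by
        simp only [← Finset.sum_div, Finset.sum_add_distrib]
      rw [h7]; linarith
    · rw [cm_add]
      have := h3 c' hc'; have := h6 c' hc'
      simp only [Prot.val]
      linarith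
  | say l r hl hr =>
    rw [prq_say] at hT
    obtain ⟨al, h1, h2, h3⟩ := hl hG.1 fun q hq => hT q (Finset.mem_union_left _ hq)
    obtain ⟨ar, h4, h5, h6⟩ := hr hG.2 fun q hq => hT q (Finset.mem_union_right _ hq)
    by_cases h : r.val (O (pat c)) ≤ l.val (O (pat c))
    · refine ⟨al, h1, h2, fun c' hc' => ?_⟩
      have := h3 c' hc'
      have h7 : l.val (O (pat c')) ≤ max (l.val (O (pat c'))) (r.val (O (pat c'))) :=
        le_max_left _ _
      simp only [Prot.val]
      rw [max_eq_left h]
      linarith
    · push Not at h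
      refine ⟨ar, h4, h5, fun c' hc' => ?_⟩
      have := h6 c' hc'
      have h7 : r.val (O (pat c')) ≤ max (l.val (O (pat c'))) (r.val (O (pat c'))) :=
        le_max_right _ _
      simp only [Prot.val]
      rw [max_eq_right h.le]
      linarith

end

theorem pf_MAS : Pool.Agent.H18.XZ.T_MAS := by
  intro k m G hG
  refine ⟨prq G, ?_, prq_small G hG.2, ?_⟩
  · refine (prq_card G hG.2).trans ?_
    rw [two_mul, pow_add]
    exact Nat.mul_le_mul_right _ (Nat.pow_le_pow_right (by norm_num) hG.1)
  · intro R P _ _ _ _ w L O hT c hc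
    exact mas_main hc G hG.2 hT

end Pool.Agent.H66.XZ
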